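import Pool.Agent.H7.Kron
import Mathlib.Tactic.NormNum.Prime

/-!
The cyclotomic polynomials whose index divides 5915 = 5 * 7 * 13^2.
-/

open Polynomial

namespace Pool.Agent.H7.Kron

theorem ofL_all_zero (l : List ℤ) (h : l.all (· == 0) = true) : ofL l = 0 := by
  induction l with
  | nil => rfl
  | cons a l ih =>
    simp only [List.all_cons, Bool.and_eq_true, beq_iff_eq] at h
    rw [ofL, ih h.2, h.1]
    simp

theorem cyc_step {n p : ℕ} (hp : p.Prime) (hn : ¬ p ∣ n) {l l' : List ℤ}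
    (h : cyclotomic n ℤ = ofL l)
    (hc : (addL (mulL l' l) ((expL (p - 1) l).map (-1 * ·))).all (· == 0) = true) :
    cyclotomic (n * p) ℤ = ofL l' := by
  have h1 := ofL_all_zero _ hc
  rw [ofL_addL, ofL_mulL, ofL_map, ofL_expL, Nat.sub_add_cancel hp.one_le, ← h,
    cyclotomic_expand_eq_cyclotomic_mul hp hn] at h1
  have h2 : ofL l' * cyclotomic n ℤ = cyclotomic (n * p) ℤ * cyclotomic n ℤ := by
    have : C (-1 : ℤ) = -1 := by simp
    rw [this] at h1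
    linear_combination h1
  exact (mul_right_cancel₀ (cyclotomic_ne_zero n ℤ) h2).symm

def l1 : List ℤ := [-1, 1]

def l5 : List ℤ := [1, 1, 1, 1, 1]

def l7 : List ℤ := [1, 1, 1, 1, 1, 1, 1]

def l13 : List ℤ := [1, 1, 1, 1, 1, 1, 1, 1, 1, 1, 1, 1, 1]

def l35 : List ℤ := [1, -1, 0, 0, 0, 1, -1, 1, -1, 0, 1, -1, 1, -1, 1, 0, -1, 1, -1, 1, 0, 0, 0,
  -1, 1]

def l65 : List ℤ := [1, -1, 0, 0, 0, 1, -1, 0, 0, 0, 1, -1, 0, 1, -1, 1, -1, 0, 1, -1, 1, -1, 0,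
  1, -1, 1, 0, -1, 1, -1, 1, 0, -1, 1, -1, 1, 0, -1, 1, 0, 0, 0, -1, 1, 0, 0, 0, -1, 1]

def l91 : List ℤ := [1, -1, 0, 0, 0, 0, 0, 1, -1, 0, 0, 0, 0, 1, 0, -1, 0, 0, 0, 0, 1, 0, -1, 0,
  0, 0, 1, 0, 0, -1, 0, 0, 0, 1, 0, 0, -1, 0, 0, 1, 0, 0, 0, -1, 0, 0, 1, 0, 0, 0, -1, 0, 1, 0,
  0, 0, 0, -1, 0, 1, 0, 0, 0, 0, -1, 1, 0, 0, 0, 0, 0, -1, 1]

def l455 : List ℤ := [1, 1, 1, 1, 1, 0, 0, -1, -1, -1, -1, -1, 0, -1, -1, -1, -1, -1, 0, 0, 1, 1,
  1, 1, 1, 0, 0, 0, 0, 0, 0, 0, 0, 0, 0, 1, 1, 1, 1, 1, 0, 0, -1, -1, -1, -1, -1, 0, -1, -1, -1,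
  -1, -1, 0, 0, 1, 1, 1, 1, 1, 0, 0, 0, 0, 0, 1, 1, 1, 1, 1, 1, 1, 0, 0, 0, -1, -1, -1, -2, -2,
  -2, -2, -1, -1, -1, 0, 0, 0, 1, 1, 1, 2, 2, 2, 2, 1, 0, 0, -1, -1, 0, 0, 0, 1, 0, 0, 0, -1, -1,
  0, -1, 0, 0, -1, -1, -1, -2, -1, -1, -1, 0, 0, 0, 1, 1, 1, 2, 2, 2, 2, 2, 1, 1, 0, 0, 0, 0, -1,
  0, -1, -1, -1, -1, -2, -1, -2, -1, -1, -1, -1, 0, -1, 0, 0, 0, 0, 1, 1, 2, 2, 2, 2, 2, 1, 1, 1,
  0, 0, 0, -1, -1, -1, -2, -1, -1, -1, 0, 0, -1, 0, -1, -1, 0, 0, 0, 1, 0, 0, 0, -1, -1, 0, 0, 1,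
  2, 2, 2, 2, 1, 1, 1, 0, 0, 0, -1, -1, -1, -2, -2, -2, -2, -1, -1, -1, 0, 0, 0, 1, 1, 1, 1, 1,
  1, 1, 0, 0, 0, 0, 0, 1, 1, 1, 1, 1, 0, 0, -1, -1, -1, -1, -1, 0, -1, -1, -1, -1, -1, 0, 0, 1,
  1, 1, 1, 1, 0, 0, 0, 0, 0, 0, 0, 0, 0, 0, 1, 1, 1, 1, 1, 0, 0, -1, -1, -1, -1, -1, 0, -1, -1,
  -1, -1, -1, 0, 0, 1, 1, 1, 1, 1]

theorem cyc1 : cyclotomic 1 ℤ = ofL l1 := by
  rw [cyclotomic_one]
  simp [l1, ofL]
  ring

theorem cyc5 : cyclotomic 5 ℤ = ofL l5 :=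
  cyc_step (n := 1) (p := 5) (by norm_num) (by norm_num) cyc1 (by decide +kernel)

theorem cyc7 : cyclotomic 7 ℤ = ofL l7 :=
  cyc_step (n := 1) (p := 7) (by norm_num) (by norm_num) cyc1 (by decide +kernel)

theorem cyc13 : cyclotomic 13 ℤ = ofL l13 :=
  cyc_step (n := 1) (p := 13) (by norm_num) (by norm_num) cyc1 (by decide +kernel)

theorem cyc35 : cyclotomic 35 ℤ = ofL l35 :=
  cyc_step (n := 5) (p := 7) (by norm_num) (by norm_num) cyc5 (by decide +kernel)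

theorem cyc65 : cyclotomic 65 ℤ = ofL l65 :=
  cyc_step (n := 5) (p := 13) (by norm_num) (by norm_num) cyc5 (by decide +kernel)

theorem cyc91 : cyclotomic 91 ℤ = ofL l91 :=
  cyc_step (n := 7) (p := 13) (by norm_num) (by norm_num) cyc7 (by decide +kernel)

theorem cyc455 : cyclotomic 455 ℤ = ofL l455 :=
  cyc_step (n := 35) (p := 13) (by norm_num) (by norm_num) cyc35 (by decide +kernel)

/-- The value at `β ^ k` of the polynomial with coefficients `l`. -/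
def val (k : ℕ) (l : List ℤ) : ℕ := (evL ((β : ℤ) ^ k) l).toNat

theorem eval_of {n : ℕ} {l : List ℤ} (h : cyclotomic n ℤ = ofL l)
    (h0 : 0 ≤ evL ((β : ℤ) ^ 1) l) : (cyclotomic n ℤ).eval (β : ℤ) = (val 1 l : ℕ) := by
  rw [h, eval_ofL, val, Int.toNat_of_nonneg h0, pow_one]

theorem eval_expand_of {n : ℕ} {l : List ℤ} (h : cyclotomic n ℤ = ofL l) (hn : 13 ∣ n)
    (h0 : 0 ≤ evL ((β : ℤ) ^ 13) l) :
    (cyclotomic (n * 13) ℤ).eval (β : ℤ) = (val 13 l : ℕ) := by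
  rw [← cyclotomic_expand_eq_cyclotomic (by norm_num) hn, expand_eval, h, eval_ofL, val,
    Int.toNat_of_nonneg h0]

theorem L1_of {n : ℕ} {l : List ℤ} (h : cyclotomic n ℤ = ofL l) :
    L1 (cyclotomic n ℤ) (sumAbs l) := by
  rw [h]
  exact L1_ofL l

theorem L1_expand_of {n : ℕ} {l : List ℤ} (h : cyclotomic n ℤ = ofL l) (hn : 13 ∣ n) :
    L1 (cyclotomic (n * 13) ℤ) (sumAbs l) := by
  rw [← cyclotomic_expand_eq_cyclotomic (by norm_num) hn]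
  exact L1_expand (L1_of h) (by norm_num)

theorem prime_cyc {n : ℕ} (hn : 0 < n) : Prime (cyclotomic n ℤ) :=
  (cyclotomic.irreducible hn).prime

/-- The facts about a factor used in the search. -/
def Ok (x : ℤ[X] × ℕ × ℕ) : Prop :=
  Prime x.1 ∧ x.1.eval (β : ℤ) = (x.2.1 : ℕ) ∧ L1 x.1 x.2.2 ∧ 1 ≤ x.2.2

theorem ok_of {n s : ℕ} {l : List ℤ} (h : cyclotomic n ℤ = ofL l)
    (h0 : 0 ≤ evL ((β : ℤ) ^ 1) l) (hn : 0 < n) (hs : sumAbs l = s) (hs' : 1 ≤ s) :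
    Ok (cyclotomic n ℤ, val 1 l, s) :=
  ⟨prime_cyc hn, eval_of h h0, hs ▸ L1_of h, hs'⟩

theorem ok_expand_of {n s : ℕ} {l : List ℤ} (h : cyclotomic n ℤ = ofL l) (hn' : 13 ∣ n)
    (h0 : 0 ≤ evL ((β : ℤ) ^ 13) l) (hn : 0 < n) (hs : sumAbs l = s) (hs' : 1 ≤ s) :
    Ok (cyclotomic (n * 13) ℤ, val 13 l, s) :=
  ⟨prime_cyc (by omega), eval_expand_of h hn' h0, hs ▸ L1_expand_of h hn', hs'⟩

theorem ok0 : Ok (cyclotomic (455 * 13) ℤ, val 13 l455, 219) :=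
  ok_expand_of cyc455 (by norm_num) (by decide +kernel) (by norm_num) (by decide +kernel) (by norm_num)

theorem ok1 : Ok (cyclotomic (91 * 13) ℤ, val 13 l91, 23) :=
  ok_expand_of cyc91 (by norm_num) (by decide +kernel) (by norm_num) (by decide +kernel) (by norm_num)

theorem ok2 : Ok (cyclotomic (65 * 13) ℤ, val 13 l65, 31) :=
  ok_expand_of cyc65 (by norm_num) (by decide +kernel) (by norm_num) (by decide +kernel) (by norm_num)

theorem ok3 : Ok (cyclotomic 455 ℤ, val 1 l455, 219) :=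
  ok_of cyc455 (by decide +kernel) (by norm_num) (by decide +kernel) (by norm_num)

theorem ok4 : Ok (cyclotomic (13 * 13) ℤ, val 13 l13, 13) :=
  ok_expand_of cyc13 (by norm_num) (by decide +kernel) (by norm_num) (by decide +kernel) (by norm_num)

theorem ok5 : Ok (cyclotomic 91 ℤ, val 1 l91, 23) :=
  ok_of cyc91 (by decide +kernel) (by norm_num) (by decide +kernel) (by norm_num)

theorem ok6 : Ok (cyclotomic 65 ℤ, val 1 l65, 31) :=
  ok_of cyc65 (by decide +kernel) (by norm_num) (by decide +kernel) (by norm_num)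

theorem ok7 : Ok (cyclotomic 35 ℤ, val 1 l35, 17) :=
  ok_of cyc35 (by decide +kernel) (by norm_num) (by decide +kernel) (by norm_num)

theorem ok8 : Ok (cyclotomic 13 ℤ, val 1 l13, 13) :=
  ok_of cyc13 (by decide +kernel) (by norm_num) (by decide +kernel) (by norm_num)

theorem ok9 : Ok (cyclotomic 7 ℤ, val 1 l7, 7) :=
  ok_of cyc7 (by decide +kernel) (by norm_num) (by decide +kernel) (by norm_num)

theorem ok10 : Ok (cyclotomic 5 ℤ, val 1 l5, 5) :=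
  ok_of cyc5 (by decide +kernel) (by norm_num) (by decide +kernel) (by norm_num)

theorem ok11 : Ok (cyclotomic 1 ℤ, val 1 l1, 2) :=
  ok_of cyc1 (by decide +kernel) (by norm_num) (by decide +kernel) (by norm_num)

noncomputable def data : List (ℤ[X] × ℕ × ℕ) :=
  [(cyclotomic (455 * 13) ℤ, val 13 l455, 219),
   (cyclotomic (91 * 13) ℤ, val 13 l91, 23),
   (cyclotomic (65 * 13) ℤ, val 13 l65, 31),
   (cyclotomic 455 ℤ, val 1 l455, 219),
   (cyclotomic (13 * 13) ℤ, val 13 l13, 13),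
   (cyclotomic 91 ℤ, val 1 l91, 23),
   (cyclotomic 65 ℤ, val 1 l65, 31),
   (cyclotomic 35 ℤ, val 1 l35, 17),
   (cyclotomic 13 ℤ, val 1 l13, 13),
   (cyclotomic 7 ℤ, val 1 l7, 7),
   (cyclotomic 5 ℤ, val 1 l5, 5),
   (cyclotomic 1 ℤ, val 1 l1, 2)]

theorem data_ok : ∀ x ∈ data, Ok x := by
  intro x hx
  simp only [data, List.mem_cons, List.not_mem_nil, or_false] at hx
  rcases hx with rfl | rfl | rfl | rfl | rfl | rfl | rfl | rfl | rfl | rfl | rfl | rfl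
  · exact ok0
  · exact ok1
  · exact ok2
  · exact ok3
  · exact ok4
  · exact ok5
  · exact ok6
  · exact ok7
  · exact ok8
  · exact ok9
  · exact ok10
  · exact ok11

theorem prod455 : (X ^ 455 - 1 : ℤ[X]) = cyclotomic 455 ℤ * cyclotomic 91 ℤ * cyclotomic 65 ℤ *
    cyclotomic 35 ℤ * cyclotomic 13 ℤ * cyclotomic 7 ℤ * cyclotomic 5 ℤ * cyclotomic 1 ℤ := by
  rw [← prod_cyclotomic_eq_X_pow_sub_one (by norm_num) ℤ]
  have : Nat.divisors 455 = {455, 91, 65, 35, 13, 7, 5, 1} := by decide +kernel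
  rw [this]
  simp [mul_assoc]

theorem exp_mul {n : ℕ} (hn : ¬ 13 ∣ n) : expand ℤ 13 (cyclotomic n ℤ) =
    cyclotomic (n * 13) ℤ * cyclotomic n ℤ :=
  cyclotomic_expand_eq_cyclotomic_mul (by norm_num) hn ℤ

theorem exp_dvd {n : ℕ} (hn : 13 ∣ n) : expand ℤ 13 (cyclotomic n ℤ) =
    cyclotomic (n * 13) ℤ :=
  cyclotomic_expand_eq_cyclotomic (by norm_num) hn ℤ

theorem data_prod : (data.map (·.1)).prod = X ^ 5915 - 1 := by
  have h := congrArg (expand ℤ 13) prod455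
  simp only [map_mul, map_sub, map_pow, map_one, expand_X] at h
  rw [exp_dvd (n := 455) (by norm_num), exp_dvd (n := 91) (by norm_num),
    exp_dvd (n := 65) (by norm_num), exp_dvd (n := 13) (by norm_num),
    exp_mul (n := 35) (by norm_num), exp_mul (n := 7) (by norm_num),
    exp_mul (n := 5) (by norm_num), exp_mul (n := 1) (by norm_num)] at h
  have e : (X ^ 5915 : ℤ[X]) = (X ^ 13) ^ 455 := by
    have h : 5915 = 13 * 455 := by norm_num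
    rw [h, pow_mul]
  rw [e, h]
  simp only [data, List.map_cons, List.map_nil, List.prod_cons, List.prod_nil]
  have e7 : 35 * 13 = 455 := by norm_num
  have e6 : 7 * 13 = 91 := by norm_num
  have e5 : 5 * 13 = 65 := by norm_num
  have e4 : 1 * 13 = 13 := by norm_num
  rw [e7, e6, e5, e4]
  generalize cyclotomic (455 * 13) ℤ = a
  generalize cyclotomic (91 * 13) ℤ = b
  generalize cyclotomic (65 * 13) ℤ = c
  generalize cyclotomic (13 * 13) ℤ = d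
  generalize cyclotomic 455 ℤ = e
  generalize cyclotomic 91 ℤ = f
  generalize cyclotomic 65 ℤ = g
  generalize cyclotomic 35 ℤ = h
  generalize cyclotomic 13 ℤ = i
  generalize cyclotomic 7 ℤ = j
  generalize cyclotomic 5 ℤ = k
  generalize cyclotomic 1 ℤ = l
  ring

theorem data_bound : 1 * (data.map (·.2.2)).prod ≤ 2 ^ 62 := by
  simp only [data, List.map_cons, List.map_nil, List.prod_cons, List.prod_nil]
  norm_num

end Pool.Agent.H7.Kron
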