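import Mathlib.RingTheory.Polynomial.Cyclotomic.Roots
import Mathlib.RingTheory.Polynomial.Cyclotomic.Expand

/-!
Kronecker substitution: reading the coefficients of an integer polynomial off its value at 2^64.
-/

open Polynomial

namespace Pool.Agent.H7.Kron

/-- Partial sums of the absolute values of the coefficients are at most `s`. -/
def L1 (g : ℤ[X]) (s : ℕ) : Prop := ∀ n, ∑ j ∈ Finset.range n, |g.coeff j| ≤ (s : ℤ)

/-- All coefficients are at most `A` in absolute value. -/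
def Bd (f : ℤ[X]) (A : ℕ) : Prop := ∀ i, |f.coeff i| ≤ (A : ℤ)

theorem Bd.mul {f g : ℤ[X]} {A s : ℕ} (hf : Bd f A) (hg : L1 g s) : Bd (f * g) (A * s) := by
  intro n
  rw [Polynomial.coeff_mul]
  calc |∑ x ∈ Finset.antidiagonal n, f.coeff x.1 * g.coeff x.2|
      ≤ ∑ x ∈ Finset.antidiagonal n, |f.coeff x.1 * g.coeff x.2| := Finset.abs_sum_le_sum_abs _ _
    _ ≤ ∑ x ∈ Finset.antidiagonal n, (A : ℤ) * |g.coeff x.2| := by
        refine Finset.sum_le_sum fun x _ => ?_
        rw [abs_mul]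
        exact mul_le_mul_of_nonneg_right (hf _) (abs_nonneg _)
    _ = (A : ℤ) * ∑ x ∈ Finset.antidiagonal n, |g.coeff x.2| := by rw [Finset.mul_sum]
    _ = (A : ℤ) * ∑ j ∈ Finset.range (n + 1), |g.coeff j| := by
        rw [← Finset.Nat.sum_antidiagonal_swap]
        rw [Finset.Nat.sum_antidiagonal_eq_sum_range_succ_mk]
        rfl
    _ ≤ (A : ℤ) * s := mul_le_mul_of_nonneg_left (hg _) (by positivity)
    _ = ((A * s : ℕ) : ℤ) := by push_cast; ring

/-- Polynomial from the list of its coefficients. -/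
noncomputable def ofL : List ℤ → ℤ[X]
  | [] => 0
  | a :: l => C a + X * ofL l

theorem ofL_coeff_zero (a : ℤ) (l : List ℤ) : (ofL (a :: l)).coeff 0 = a := by simp [ofL]

theorem ofL_coeff_succ (a : ℤ) (l : List ℤ) (j : ℕ) :
    (ofL (a :: l)).coeff (j + 1) = (ofL l).coeff j := by
  rw [ofL, coeff_add, coeff_C, coeff_X_mul, if_neg (Nat.succ_ne_zero j), zero_add]

def sumAbs : List ℤ → ℕ
  | [] => 0
  | a :: l => a.natAbs + sumAbs l

theorem L1_ofL (l : List ℤ) : L1 (ofL l) (sumAbs l) := by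
  induction l with
  | nil => intro n; simp [ofL, sumAbs]
  | cons a l ih =>
    intro n
    cases n with
    | zero => simp
    | succ n =>
      rw [Finset.sum_range_succ', ofL_coeff_zero]
      simp only [ofL_coeff_succ]
      have := ih n
      simp only [sumAbs]
      push_cast
      linarith

theorem L1_expand {g : ℤ[X]} {s : ℕ} (hg : L1 g s) {p : ℕ} (hp : 0 < p) :
    L1 (expand ℤ p g) s := by
  intro n
  simp only [coeff_expand hp]
  have h1 : ∑ j ∈ Finset.range n, |if p ∣ j then g.coeff (j / p) else 0|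
      = ∑ j ∈ (Finset.range n).filter (p ∣ ·), |g.coeff (j / p)| := by
    rw [Finset.sum_filter]
    refine Finset.sum_congr rfl fun j _ => ?_
    split_ifs <;> simp
  rw [h1]
  have hinj : Set.InjOn (fun j => j / p) ((Finset.range n).filter (p ∣ ·) : Finset ℕ) := by
    intro a ha b hb hab
    simp only [Finset.coe_filter, Finset.mem_range, Set.mem_ofPred_eq] at ha hb
    obtain ⟨c, rfl⟩ := ha.2
    obtain ⟨d, rfl⟩ := hb.2
    simp only [Nat.mul_div_cancel_left _ hp] at hab
    rw [hab]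
  rw [← Finset.sum_image (f := fun i => |g.coeff i|) hinj]
  refine le_trans (Finset.sum_le_sum_of_subset_of_nonneg ?_ fun _ _ _ => abs_nonneg _) (hg n)
  intro i hi
  simp only [Finset.mem_image, Finset.mem_filter, Finset.mem_range] at hi ⊢
  obtain ⟨j, ⟨hj, _⟩, rfl⟩ := hi
  exact lt_of_le_of_lt (Nat.div_le_self _ _) hj

def addL : List ℤ → List ℤ → List ℤ
  | [], m => m
  | l, [] => l
  | a :: l, b :: m => (a + b) :: addL l m

theorem ofL_addL (l m : List ℤ) : ofL (addL l m) = ofL l + ofL m := by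
  induction l generalizing m with
  | nil => simp [addL, ofL]
  | cons a l ih =>
    cases m with
    | nil => simp [addL, ofL]
    | cons b m =>
      rw [addL, ofL, ofL, ofL, ih, C_add]
      ring

theorem ofL_map (c : ℤ) (l : List ℤ) : ofL (l.map (c * ·)) = C c * ofL l := by
  induction l with
  | nil => simp [ofL]
  | cons a l ih =>
    rw [List.map_cons, ofL, ofL, ih, C_mul]
    ring

def mulL : List ℤ → List ℤ → List ℤ
  | [], _ => []
  | a :: l, m => addL (m.map (a * ·)) (0 :: mulL l m)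

theorem ofL_mulL (l m : List ℤ) : ofL (mulL l m) = ofL l * ofL m := by
  induction l with
  | nil => simp [mulL, ofL]
  | cons a l ih =>
    rw [mulL, ofL_addL, ofL_map, ofL, ofL, ih, C_0]
    ring

/-- `p` zeros inserted after every entry but the polynomial is in `X^(p+1)`. -/
def expL (p : ℕ) : List ℤ → List ℤ
  | [] => []
  | a :: l => a :: (List.replicate p 0 ++ expL p l)

theorem ofL_replicate_append (p : ℕ) (l : List ℤ) :
    ofL (List.replicate p 0 ++ l) = X ^ p * ofL l := by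
  induction p with
  | zero => simp
  | succ p ih =>
    rw [List.replicate_succ, List.cons_append, ofL, ih, C_0]
    ring

theorem ofL_expL (p : ℕ) (l : List ℤ) : ofL (expL p l) = expand ℤ (p + 1) (ofL l) := by
  induction l with
  | nil => simp [expL, ofL]
  | cons a l ih =>
    rw [expL, ofL, ofL_replicate_append, ih, ofL, map_add, map_mul, expand_C, expand_X]
    ring

/-- Horner evaluation. -/
def evL (b : ℤ) : List ℤ → ℤ
  | [] => 0
  | a :: l => a + b * evL b l

theorem eval_ofL (b : ℤ) (l : List ℤ) : (ofL l).eval b = evL b l := by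
  induction l with
  | nil => simp [ofL, evL]
  | cons a l ih => simp [ofL, evL, ih]

/-! ### Digits -/

/-- The base. -/
abbrev β : ℕ := 2 ^ 64

theorem eval_divX (g : ℤ[X]) (b : ℤ) : g.eval b = b * (divX g).eval b + g.coeff 0 := by
  conv_lhs => rw [← divX_mul_X_add g]
  simp [mul_comm]

/-- If the value at `β` of an integer polynomial with coefficients below `2^63` has only base-`β`
digits below `2^63`, then these digits are the coefficients. -/
theorem coeff_eq_digit (i : ℕ) : ∀ (g : ℤ[X]) (N : ℕ), g.eval (β : ℤ) = N →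
    (∀ j, |g.coeff j| < 2 ^ 63) → (∀ j, (N / β ^ j) % β < 2 ^ 63) →
    g.coeff i = ((N / β ^ i) % β : ℕ) := by
  have key : ∀ (g : ℤ[X]) (N : ℕ), g.eval (β : ℤ) = N →
    (∀ j, |g.coeff j| < 2 ^ 63) → (∀ j, (N / β ^ j) % β < 2 ^ 63) →
    g.coeff 0 = (N % β : ℕ) := by
    intro g N hN hg hd
    rw [eval_divX] at hN
    have h0 := hd 0
    rw [pow_zero, Nat.div_one] at h0
    have hg0 := hg 0
    rw [abs_lt] at hg0
    have hdm : (N : ℤ) = (β : ℤ) * ((N / β : ℕ) : ℤ) + ((N % β : ℕ) : ℤ) := by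
      exact_mod_cast (Nat.div_add_mod N β).symm
    set r : ℕ := N % β with hr
    set q : ℕ := N / β with hq
    set D : ℤ := (divX g).eval (β : ℤ) with hD
    have hβ : ((β : ℕ) : ℤ) = 18446744073709551616 := by norm_num [β]
    rw [hβ] at hN hdm
    have h0' : (r : ℤ) < 2 ^ 63 := by exact_mod_cast h0
    have h0'' : (0 : ℤ) ≤ r := Int.natCast_nonneg _
    omega
  induction i with
  | zero =>
    intro g N hN hg hd
    rw [pow_zero, Nat.div_one]
    exact key g N hN hg hd
  | succ i ih =>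
    intro g N hN hg hd
    have h0 := key g N hN hg hd
    have hdm : (N : ℤ) = (β : ℤ) * ((N / β : ℕ) : ℤ) + ((N % β : ℕ) : ℤ) := by
      exact_mod_cast (Nat.div_add_mod N β).symm
    have hev : (divX g).eval (β : ℤ) = ((N / β : ℕ) : ℤ) := by
      rw [eval_divX, h0, hdm] at hN
      have hβ : ((β : ℕ) : ℤ) = 18446744073709551616 := by norm_num [β]
      rw [hβ] at hN ⊢
      omega
    have := ih (divX g) (N / β) hev (fun j => by rw [coeff_divX]; exact hg _)
      (fun j => by
        have := hd (j + 1)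
        rwa [pow_succ', ← Nat.div_div_eq_div_mul] at this)
    rw [coeff_divX] at this
    rw [this, pow_succ', ← Nat.div_div_eq_div_mul]


/-! ### The mask check -/

/-- `L` blocks of 64 bits, in each of which the bits 15, ..., 63 are set. -/
def hm : ℕ → ℕ
  | 0 => 0
  | L + 1 => hm L * β + (2 ^ 64 - 2 ^ 15)

theorem block {d : ℕ} (hd : d < β) (h : d &&& (2 ^ 64 - 2 ^ 15) = 0) : d < 2 ^ 15 := by
  have h1 : (d &&& (2 ^ 64 - 2 ^ 15)) / 2 ^ 15 = 0 := by rw [h]; rfl
  rw [Nat.and_div_two_pow] at h1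
  have h2 : (2 ^ 64 - 2 ^ 15) / 2 ^ 15 = 2 ^ 49 - 1 := by norm_num
  rw [h2, Nat.and_two_pow_sub_one_eq_mod] at h1
  have h3 : d / 2 ^ 15 < 2 ^ 49 := by
    rw [Nat.div_lt_iff_lt_mul (by norm_num)]
    calc d < β := hd
      _ = 2 ^ 49 * 2 ^ 15 := by norm_num [β]
  rw [Nat.mod_eq_of_lt h3] at h1
  have := Nat.lt_of_div_eq_zero (by norm_num) h1
  exact this

theorem digits_of_mask (L : ℕ) : ∀ N : ℕ, N < β ^ L → N &&& hm L = 0 →
    ∀ j, (N / β ^ j) % β < 2 ^ 15 := by
  induction L with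
  | zero =>
    intro N hN _ j
    have : N = 0 := by simpa using hN
    subst this
    simp
  | succ L ih =>
    intro N hN hm0 j
    have hlow : (N % β) &&& (2 ^ 64 - 2 ^ 15) = 0 := by
      have h1 : (N &&& hm (L + 1)) % 2 ^ 64 = 0 := by rw [hm0]; rfl
      rw [Nat.and_mod_two_pow] at h1
      have h2 : hm (L + 1) % 2 ^ 64 = 2 ^ 64 - 2 ^ 15 := by
        rw [hm]
        show (hm L * 2 ^ 64 + (2 ^ 64 - 2 ^ 15)) % 2 ^ 64 = 2 ^ 64 - 2 ^ 15
        rw [Nat.mul_comm, Nat.mul_add_mod]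
        norm_num
      rw [h2] at h1
      exact h1
    have hhigh : (N / β) &&& hm L = 0 := by
      have h1 : (N &&& hm (L + 1)) / 2 ^ 64 = 0 := by rw [hm0]; rfl
      rw [Nat.and_div_two_pow] at h1
      have h2 : hm (L + 1) / 2 ^ 64 = hm L := by
        rw [hm]
        show (hm L * 2 ^ 64 + (2 ^ 64 - 2 ^ 15)) / 2 ^ 64 = hm L
        rw [Nat.mul_comm, Nat.mul_add_div (by norm_num)]
        norm_num
      rw [h2] at h1
      exact h1
    cases j with
    | zero =>
      rw [pow_zero, Nat.div_one]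
      exact block (Nat.mod_lt _ (by norm_num [β])) hlow
    | succ j =>
      rw [pow_succ', ← Nat.div_div_eq_div_mul]
      refine ih (N / β) ?_ hhigh j
      rw [Nat.div_lt_iff_lt_mul (by norm_num [β])]
      rwa [← pow_succ]


/-- The number with `L` digits `1`. -/
def rep (L : ℕ) : ℕ := (β ^ L - 1) / (β - 1)

theorem rep_mul (L : ℕ) : rep L * (β - 1) = β ^ L - 1 :=
  Nat.div_mul_cancel (Nat.sub_one_dvd_pow_sub_one β L)

theorem rep_eq_sum (L : ℕ) : rep L = ∑ i ∈ Finset.range L, β ^ i := by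
  have h := Nat.geomSum_eq (m := β) (by norm_num [β]) L
  rw [rep, h]

theorem rep_succ (L : ℕ) : rep (L + 1) = rep L * β + 1 := by
  rw [rep_eq_sum, rep_eq_sum, Finset.sum_range_succ', Finset.sum_mul]
  simp [pow_succ]

theorem hm_eq (L : ℕ) : hm L = rep L * (2 ^ 64 - 2 ^ 15) := by
  induction L with
  | zero => simp [hm, rep]
  | succ L ih =>
    rw [hm, ih, rep_succ]
    ring

/-- The test that all coefficients of a polynomial with value `V` are at most `M` in absolute
value. -/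
def chk (L M V : ℕ) : Bool :=
  Nat.ble (V + (2 ^ 15 - 1 - M) * rep L + 1) (β ^ L) &&
    (Nat.beq ((V + M * rep L) &&& (rep L * (2 ^ 64 - 2 ^ 15))) 0 &&
      Nat.beq ((V + (2 ^ 15 - 1 - M) * rep L) &&& (rep L * (2 ^ 64 - 2 ^ 15))) 0)

noncomputable def G (L : ℕ) : ℤ[X] := ∑ i ∈ Finset.range L, X ^ i

theorem coeff_G (L i : ℕ) : (G L).coeff i = if i < L then 1 else 0 := by
  rw [G, finsetSum_coeff]
  simp only [coeff_X_pow]
  rw [Finset.sum_ite_eq]
  simp

theorem eval_G (L : ℕ) : (G L).eval (β : ℤ) = (rep L : ℕ) := by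
  rw [G, eval_finsetSum, rep_eq_sum]
  simp

/-- Coefficients shifted by `c` are read off as digits. -/
theorem shifted {f : ℤ[X]} {V A : ℕ} (hf : f.eval (β : ℤ) = V) (hA : Bd f A) (hA' : A ≤ 2 ^ 62)
    {L c : ℕ} (hc : c < 2 ^ 15) (hlt : V + c * rep L < β ^ L)
    (hmask : (V + c * rep L) &&& (rep L * (2 ^ 64 - 2 ^ 15)) = 0) (i : ℕ) :
    f.coeff i + (if i < L then (c : ℤ) else 0) = (((V + c * rep L) / β ^ i) % β : ℕ) ∧
      ((V + c * rep L) / β ^ i) % β < 2 ^ 15 := by
  have hd := digits_of_mask L (V + c * rep L) hlt (by rw [hm_eq]; exact hmask)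
  refine ⟨?_, hd i⟩
  have hev : (f + C (c : ℤ) * G L).eval (β : ℤ) = ((V + c * rep L : ℕ) : ℤ) := by
    rw [eval_add, eval_mul, eval_C, eval_G, hf]
    push_cast
    ring
  have hco : ∀ j, (f + C (c : ℤ) * G L).coeff j = f.coeff j + (if j < L then (c : ℤ) else 0) := by
    intro j
    rw [coeff_add, coeff_C_mul, coeff_G]
    split_ifs <;> simp
  have := coeff_eq_digit i _ _ hev (fun j => by
    rw [hco]
    have h1 := hA j
    have h2 : (A : ℤ) ≤ 2 ^ 62 := by exact_mod_cast hA'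
    have h3 : (c : ℤ) < 2 ^ 15 := by exact_mod_cast hc
    have h4 : (0 : ℤ) ≤ c := Int.natCast_nonneg _
    rw [abs_le] at h1
    rw [abs_lt]
    split_ifs <;> constructor <;> omega) (fun j => lt_trans (hd j) (by norm_num))
  rw [hco] at this
  exact this

theorem chk_sound {f : ℤ[X]} {V A : ℕ} (hf : f.eval (β : ℤ) = V) (hA : Bd f A) (hA' : A ≤ 2 ^ 62)
    {L M : ℕ} (hM : M < 2 ^ 14) (h : chk L M V = true) (i : ℕ) : |f.coeff i| ≤ (M : ℤ) := by
  simp only [chk, Bool.and_eq_true, Nat.ble_eq, Nat.beq_eq] at h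
  obtain ⟨hlt, h1, h2⟩ := h
  have hle : M * rep L ≤ (2 ^ 15 - 1 - M) * rep L := Nat.mul_le_mul_right _ (by omega)
  have e1 := shifted hf hA hA' (c := M) (by omega) (by omega) h1 i
  have e2 := shifted hf hA hA' (c := 2 ^ 15 - 1 - M) (by omega) (by omega) h2 i
  have hcast : ((2 ^ 15 - 1 - M : ℕ) : ℤ) = 2 ^ 15 - 1 - (M : ℤ) := by
    omega
  rw [hcast] at e2
  rw [abs_le]
  by_cases hi : i < L
  · simp only [if_pos hi] at e1 e2
    constructor
    · have := Int.natCast_nonneg (((V + M * rep L) / β ^ i) % β)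
      omega
    · have : ((((V + (2 ^ 15 - 1 - M) * rep L) / β ^ i) % β : ℕ) : ℤ) < 2 ^ 15 := by
        exact_mod_cast e2.2
      omega
  · simp only [if_neg hi] at e1
    have hz : (V + M * rep L) / β ^ i = 0 := by
      rw [Nat.div_eq_zero_iff]
      right
      calc V + M * rep L < β ^ L := by omega
        _ ≤ β ^ i := Nat.pow_le_pow_right (by norm_num [β]) (by omega)
    rw [hz] at e1
    simp only [Nat.zero_mod] at e1
    have : f.coeff i = 0 := by simpa using e1.1
    rw [this]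
    constructor <;> omega

/-- Exact value of a coefficient. -/
theorem coeff_exact {f : ℤ[X]} {V A : ℕ} (hf : f.eval (β : ℤ) = V) (hA : Bd f A)
    (hA' : A ≤ 2 ^ 62) {L M : ℕ} (hM : M < 2 ^ 14) (h : chk L M V = true) {i : ℕ} (hi : i < L) :
    f.coeff i = (((V + M * rep L) / β ^ i) % β : ℕ) - (M : ℤ) := by
  simp only [chk, Bool.and_eq_true, Nat.ble_eq, Nat.beq_eq] at h
  obtain ⟨hlt, h1, h2⟩ := h
  have hle : M * rep L ≤ (2 ^ 15 - 1 - M) * rep L := Nat.mul_le_mul_right _ (by omega)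
  have e1 := shifted hf hA hA' (c := M) (by omega) (by omega) h1 i
  rw [if_pos hi] at e1
  linarith [e1.1]

/-- All subproducts pass the test. -/
def go (L M : ℕ) : List ℕ → ℕ → Bool
  | [], V => chk L M V
  | c :: cs, V => go L M cs V && go L M cs (V * c)

/-- Every divisor of a product of primes of `ℤ[X]` whose subproducts pass the test has
coefficients at most `M`. -/
theorem go_sound {L M : ℕ} (hM : M < 2 ^ 14) : ∀ (ps : List (ℤ[X] × ℕ × ℕ)) (f : ℤ[X]) (V A : ℕ),
    (∀ x ∈ ps, Prime x.1 ∧ x.1.eval (β : ℤ) = (x.2.1 : ℕ) ∧ L1 x.1 x.2.2 ∧ 1 ≤ x.2.2) →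
    f.eval (β : ℤ) = V → Bd f A → A * (ps.map (·.2.2)).prod ≤ 2 ^ 62 →
    go L M (ps.map (·.2.1)) V = true →
    ∀ h : ℤ[X], h ∣ (ps.map (·.1)).prod → ∀ i, |(f * h).coeff i| ≤ (M : ℤ) := by
  intro ps
  induction ps with
  | nil =>
    intro f V A _ hf hA hA' hgo h hh i
    simp only [List.map_nil, List.prod_nil] at hh hA'
    rw [mul_one] at hA'
    have hch := chk_sound hf hA hA' hM (by simpa [go] using hgo)
    obtain ⟨r, hr, rfl⟩ := Polynomial.isUnit_iff.1 (isUnit_of_dvd_one hh)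
    rw [coeff_mul_C, abs_mul, Int.isUnit_iff_abs_eq.1 hr, mul_one]
    exact hch i
  | cons p ps ih =>
    intro f V A hps hf hA hA' hgo h hh i
    simp only [List.map_cons, List.prod_cons] at hh hA'
    simp only [List.map_cons, go, Bool.and_eq_true] at hgo
    obtain ⟨hp, hpe, hp1, hp2⟩ := hps p (by simp)
    have hps' : ∀ x ∈ ps, Prime x.1 ∧ x.1.eval (β : ℤ) = (x.2.1 : ℕ) ∧ L1 x.1 x.2.2 ∧ 1 ≤ x.2.2 :=
      fun x hx => hps x (by simp [hx])
    rcases hp.left_dvd_or_dvd_right_of_dvd_mul hh with ⟨h', rfl⟩ | hdv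
    · have hd : h' ∣ (ps.map (·.1)).prod := (mul_dvd_mul_iff_left hp.ne_zero).1 hh
      have := ih (f * p.1) (V * p.2.1) (A * p.2.2) hps' (by rw [eval_mul, hf, hpe]; push_cast; ring)
        (hA.mul hp1) (by rw [mul_assoc]; exact hA') hgo.2 h' hd i
      rwa [mul_assoc] at this
    · refine ih f V A hps' hf hA (le_trans ?_ hA') hgo.1 h hdv i
      exact Nat.mul_le_mul_left _ (Nat.le_mul_of_pos_left _ hp2)

end Pool.Agent.H7.Kron
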