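import Pool.Agent.H7.Cyc5915

/-!
The largest height of a divisor of `X ^ 5915 - 1` is 12822, where 5915 = 5 * 7 * 13 ^ 2.
-/

open Polynomial

namespace Pool.Agent.H7.Kron

theorem search : go 5916 12822 (data.map (·.2.1)) 1 = true := by
  simp only [data, List.map_cons, List.map_nil]
  decide +kernel

/-- All coefficients of all divisors are at most 12822. -/
theorem upper (h : ℤ[X]) (hh : h ∣ X ^ 5915 - 1) (i : ℕ) : |h.coeff i| ≤ (12822 : ℤ) := by
  have := go_sound (L := 5916) (M := 12822) (by norm_num) data 1 1 1 data_ok (by simp)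
    (by
      intro i
      rw [coeff_one]
      split_ifs <;> simp) data_bound search h (by rw [data_prod]; exact hh) i
  rw [one_mul] at this
  exact_mod_cast this

/-- The extremal divisor. -/
noncomputable def ext : ℤ[X] :=
  cyclotomic (91 * 13) ℤ * (cyclotomic (65 * 13) ℤ * (cyclotomic 455 ℤ * (cyclotomic 13 ℤ *
    (cyclotomic 7 ℤ * cyclotomic 5 ℤ))))

theorem ext_dvd : ext ∣ X ^ 5915 - 1 := by
  rw [← data_prod]
  simp only [data, List.map_cons, List.map_nil, List.prod_cons, List.prod_nil]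
  rw [ext]
  generalize cyclotomic (455 * 13) ℤ = a
  generalize cyclotomic (91 * 13) ℤ = b
  generalize cyclotomic (65 * 13) ℤ = c
  generalize cyclotomic (13 * 13) ℤ = d
  generalize cyclotomic 455 ℤ = e
  generalize cyclotomic 91 ℤ = f
  generalize cyclotomic 65 ℤ = g
  generalize cyclotomic 35 ℤ = h
  generalize cyclotomic 13 ℤ = i
  generalize cyclotomic 7 ℤ = j
  generalize cyclotomic 5 ℤ = k
  generalize cyclotomic 1 ℤ = l
  exact ⟨a * d * f * g * h * l, by ring⟩

def extV : ℕ :=
  1 * val 1 l5 * val 1 l7 * val 1 l13 * val 1 l455 * val 13 l65 * val 13 l91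

theorem chk_ext : chk 5916 12822 extV = true := by decide +kernel

theorem digit_ext : ((extV + 12822 * rep 5916) / β ^ 597) % β = 25644 := by decide +kernel

theorem coeff_ext : ext.coeff 597 = 12822 := by
  have b0 : Bd (1 : ℤ[X]) 1 := by
    intro i
    rw [coeff_one]
    split_ifs <;> simp
  obtain ⟨-, e5, f5, -⟩ := ok10
  obtain ⟨-, e7, f7, -⟩ := ok9
  obtain ⟨-, e13, f13, -⟩ := ok8
  obtain ⟨-, e455, f455, -⟩ := ok3
  obtain ⟨-, e65, f65, -⟩ := ok2
  obtain ⟨-, e91, f91, -⟩ := ok1
  have hb := (((((b0.mul f5).mul f7).mul f13).mul f455).mul f65).mul f91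
  have hev : (1 * cyclotomic 5 ℤ * cyclotomic 7 ℤ * cyclotomic 13 ℤ * cyclotomic 455 ℤ *
      cyclotomic (65 * 13) ℤ * cyclotomic (91 * 13) ℤ).eval (β : ℤ) = (extV : ℕ) := by
    simp only [eval_mul, eval_one]
    simp only at e5 e7 e13 e455 e65 e91
    rw [e5, e7, e13, e455, e65, e91, extV]
    push_cast
    ring
  have := coeff_exact hev hb (by norm_num) (by norm_num) chk_ext (i := 597) (by norm_num)
  rw [digit_ext] at this
  have hext : ext = 1 * cyclotomic 5 ℤ * cyclotomic 7 ℤ * cyclotomic 13 ℤ * cyclotomic 455 ℤ *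
      cyclotomic (65 * 13) ℤ * cyclotomic (91 * 13) ℤ := by
    rw [ext]; ring
  rw [hext, this]
  norm_num

end Pool.Agent.H7.Kron
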