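import Mathlib

set_option autoImplicit false

namespace Pool.Agent.H7.Tokareva

open Finset MvPolynomial

/-- subsets of `Fin n` of size at most `m` -/
abbrev Idx (n m : ℕ) : Type := {S : Finset (Fin n) // S.card ≤ m}

/-- exponent vector of the squarefree monomial attached to `S` -/
noncomputable def ex {n : ℕ} (S : Finset (Fin n)) : Fin n →₀ ℕ :=
  Finsupp.indicator S (fun _ _ => 1)

theorem ex_apply {n : ℕ} (S : Finset (Fin n)) (i : Fin n) :
    ex S i = if i ∈ S then 1 else 0 := by
  unfold ex
  rw [Finsupp.indicator_apply]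
  by_cases h : i ∈ S <;> simp [h]

theorem ex_inj {n : ℕ} : Function.Injective (ex : Finset (Fin n) → (Fin n →₀ ℕ)) := by
  intro S T h
  ext i
  have := DFunLike.congr_fun h i
  rw [ex_apply, ex_apply] at this
  by_cases h1 : i ∈ S <;> by_cases h2 : i ∈ T <;> simp_all

/-- polynomial with prescribed coefficients -/
noncomputable def poly {n m : ℕ} (c : Idx n m → ZMod 2) : MvPolynomial (Fin n) (ZMod 2) :=
  ∑ S : Idx n m, monomial (ex S.1) (c S)

theorem coeff_poly {n m : ℕ} (c : Idx n m → ZMod 2) (S : Idx n m) :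
    coeff (ex S.1) (poly c) = c S := by
  classical
  unfold poly
  rw [coeff_sum, Finset.sum_eq_single S]
  · simp
  · intro T _ hT
    rw [coeff_monomial, if_neg]
    intro h
    exact hT (Subtype.ext (ex_inj h))
  · intro h
    exact absurd (Finset.mem_univ _) h

theorem poly_inj {n m : ℕ} : Function.Injective (poly : (Idx n m → ZMod 2) → _) := by
  intro c d h
  funext S
  rw [← coeff_poly c S, ← coeff_poly d S, h]

theorem poly_sub {n m : ℕ} (c d : Idx n m → ZMod 2) : poly (c - d) = poly c - poly d := by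
  unfold poly
  rw [← Finset.sum_sub_distrib]
  refine Finset.sum_congr rfl fun S _ => ?_
  rw [Pi.sub_apply, map_sub]

theorem totalDegree_poly {n m : ℕ} (c : Idx n m → ZMod 2) : (poly c).totalDegree ≤ m := by
  unfold poly
  refine totalDegree_finsetSum_le fun S _ => ?_
  refine (totalDegree_monomial_le _ _).trans ?_
  have h : (ex S.1).sum (fun _ => id) = S.1.card := by
    rw [Finsupp.sum_fintype _ _ (fun _ => rfl)]
    simp [ex_apply]
  rw [h]
  exact S.2

theorem poly_mem {n m : ℕ} (c : Idx n m → ZMod 2) :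
    poly c ∈ restrictDegree (Fin n) (ZMod 2) (Fintype.card (ZMod 2) - 1) := by
  unfold poly
  refine Submodule.sum_mem _ fun S _ => ?_
  rw [mem_restrictDegree]
  intro s hs i
  have h := Finset.mem_singleton.1 (support_monomial_subset hs)
  rw [h, ex_apply]
  have : Fintype.card (ZMod 2) = 2 := ZMod.card 2
  rw [this]
  split_ifs <;> simp

/-- the evaluation of `poly c` determines `c` -/
theorem eval_inj {n m : ℕ} {c d : Idx n m → ZMod 2}
    (h : ∀ x, eval x (poly c) = eval x (poly d)) : c = d := by
  have h0 : poly (c - d) = 0 := by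
    apply eq_zero_of_eval_eq_zero
    · intro v
      rw [poly_sub, map_sub, h v, sub_self]
    · exact poly_mem _
  rw [poly_sub] at h0
  exact poly_inj (sub_eq_zero.1 h0)

theorem card_idx (m : ℕ) : 4 ^ m ≤ 2 * Fintype.card (Idx (2 * m) m) := by
  classical
  have h1 : Fintype.card (Idx (2 * m) m) =
      ((Finset.univ : Finset (Finset (Fin (2 * m)))).filter (fun S => S.card ≤ m)).card := by
    rw [Fintype.card_subtype]
  have h2 : (Finset.univ : Finset (Finset (Fin (2 * m)))) ⊆
      (Finset.univ.filter (fun S => S.card ≤ m)) ∪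
        (Finset.univ.filter (fun S : Finset (Fin (2 * m)) => S.card ≤ m)).image (fun S => Sᶜ) := by
    intro S _
    rw [Finset.mem_union]
    by_cases hS : S.card ≤ m
    · left
      simp [hS]
    · right
      rw [Finset.mem_image]
      refine ⟨Sᶜ, ?_, compl_compl S⟩
      rw [Finset.mem_filter]
      refine ⟨Finset.mem_univ _, ?_⟩
      rw [Finset.card_compl, Fintype.card_fin]
      omega
  have h3 := (Finset.card_le_card h2).trans (Finset.card_union_le _ _)
  have h4 := h3.trans (Nat.add_le_add_left Finset.card_image_le _)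
  rw [Finset.card_univ, Fintype.card_finset, Fintype.card_fin, pow_mul] at h4
  rw [h1]
  norm_num at h4
  omega

/-- If every function of degree at most `m` on `2 m` bits is a sum of two functions with
property `P`, then there are at least `2 ^ (4 ^ m / 4)` functions with property `P`. -/
theorem count {m : ℕ} (P : ((Fin (2 * m) → ZMod 2) → ZMod 2) → Prop)
    (H : ∀ f : (Fin (2 * m) → ZMod 2) → ZMod 2,
        (∃ p : MvPolynomial (Fin (2 * m)) (ZMod 2),
            p.totalDegree ≤ m ∧ ∀ x, MvPolynomial.eval x p = f x) →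
        ∃ g h : (Fin (2 * m) → ZMod 2) → ZMod 2, P g ∧ P h ∧ ∀ x, f x = g x + h x) :
    2 ^ 4 ^ m ≤ (Nat.card {f // P f}) ^ 4 := by
  classical
  have H' : ∀ c : Idx (2 * m) m → ZMod 2, ∃ q : {f // P f} × {f // P f},
      ∀ x, eval x (poly c) = q.1.1 x + q.2.1 x := by
    intro c
    obtain ⟨g, h, hg, hh, hx⟩ := H (fun x => eval x (poly c)) ⟨poly c, totalDegree_poly c,
      fun _ => rfl⟩
    exact ⟨(⟨g, hg⟩, ⟨h, hh⟩), hx⟩
  choose Φ hΦ using H'
  have hinj : Function.Injective Φ := by
    intro c d h
    apply eval_inj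
    intro x
    rw [hΦ c x, hΦ d x, h]
  have h1 := Fintype.card_le_of_injective Φ hinj
  rw [Fintype.card_prod, Fintype.card_fun, ZMod.card, ← Nat.card_eq_fintype_card (α := {f // P f})]
    at h1
  have h2 := card_idx m
  calc 2 ^ 4 ^ m ≤ 2 ^ (2 * Fintype.card (Idx (2 * m) m)) :=
        Nat.pow_le_pow_right (by norm_num) h2
    _ = (2 ^ Fintype.card (Idx (2 * m) m)) ^ 2 := by rw [mul_comm, pow_mul]
    _ ≤ (Nat.card {f // P f} * Nat.card {f // P f}) ^ 2 := Nat.pow_le_pow_left h1 2
    _ = (Nat.card {f // P f}) ^ 4 := by ring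

end Pool.Agent.H7.Tokareva
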